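import Pool.Agent.Helper14.GS.St

set_option autoImplicit false

namespace Pool.Agent.Helper91.GS

open Pool.Agent.Helper14.GS Pool.Agent.Helper10.EP

private lemma fin_B6 (E : ℕ) (u v : Fin E) : |((u : ℕ) : ℝ) - ((v : ℕ) : ℝ)| ≤ (E : ℝ) - 1 := by
  have h1 : ((u : ℕ) : ℝ) ≤ (E : ℝ) - 1 := by
    have := u.2
    have h2 : ((u : ℕ) : ℝ) + 1 ≤ E := by exact_mod_cast this
    linarith
  have h3 : ((v : ℕ) : ℝ) ≤ (E : ℝ) - 1 := by
    have := v.2
    have h2 : ((v : ℕ) : ℝ) + 1 ≤ E := by exact_mod_cast this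
    linarith
  have h4 : (0 : ℝ) ≤ ((u : ℕ) : ℝ) := Nat.cast_nonneg _
  have h5 : (0 : ℝ) ≤ ((v : ℕ) : ℝ) := Nat.cast_nonneg _
  rw [abs_le]
  constructor <;> linarith

private lemma prod_B6 (Q : Finset ℕ) (a : ℕ → ℝ) (A b : ℝ) (q₀ : ℕ) (hq : q₀ ∈ Q)
    (h0 : ∀ q ∈ Q, 0 ≤ a q) (h1 : ∀ q ∈ Q, a q ≤ A) (h2 : a q₀ ≤ b) (t : ℝ) (ht : 0 < t)
    (hb : b * t ≤ A) (hA : 0 ≤ A) : ∏ q ∈ Q, a q ≤ A ^ Q.card / t := by
  classical
  rw [← Finset.mul_prod_erase Q a hq, le_div_iff₀ ht]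
  have h3 : ∏ q ∈ Q.erase q₀, a q ≤ A ^ (Q.erase q₀).card := by
    rw [← Finset.prod_const]
    exact Finset.prod_le_prod (fun q hq => h0 q (Finset.mem_of_mem_erase hq))
      (fun q hq => h1 q (Finset.mem_of_mem_erase hq))
  have h4 : 0 ≤ ∏ q ∈ Q.erase q₀, a q :=
    Finset.prod_nonneg fun q hq => h0 q (Finset.mem_of_mem_erase hq)
  have h5 : A ^ Q.card = A * A ^ (Q.erase q₀).card := by
    rw [Finset.card_erase_of_mem hq, ← pow_succ']
    congr 1
    have : 0 < Q.card := Finset.card_pos.2 ⟨q₀, hq⟩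
    omega
  rw [h5]
  have h6 : a q₀ * t ≤ A := (mul_le_mul_of_nonneg_right h2 ht.le).trans hb
  calc (a q₀ * ∏ q ∈ Q.erase q₀, a q) * t = (a q₀ * t) * ∏ q ∈ Q.erase q₀, a q := by
        ring
    _ ≤ A * A ^ (Q.erase q₀).card := mul_le_mul h6 h3 h4 hA

theorem B6 (h2 : StB2) (h3 : StB3) (h4 : StB4) : StB6 := by
  intro y r E' J X δ ρ Λ hΛ hy hr hE' hJ hX hρ hδ hrE hδL hcos hsep hJρ
  classical
  obtain ⟨Q, hQ⟩ : ∃ Q : Finset ℕ, Q = (Finset.range (y + 1)).filter Nat.Prime := ⟨_, rfl⟩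
  rw [← hQ] at hΛ
  have hQm : ∀ q, q ∈ Q ↔ q.Prime ∧ q ≤ y := by
    intro q
    rw [hQ, Finset.mem_filter, Finset.mem_range]
    constructor
    · rintro ⟨h1, h2⟩
      exact ⟨h2, by omega⟩
    · rintro ⟨h1, h2⟩
      exact ⟨by omega, h1⟩
  have hlog0 : ∀ q : ℕ, 0 ≤ Real.log q := fun q => Real.log_natCast_nonneg q
  have hΛ0 : 0 < Λ := by
    have h5 : Real.log ((2 : ℕ) : ℝ) ≤ Λ := by
      rw [hΛ]
      exact Finset.single_le_sum (f := fun q : ℕ => Real.log q) (fun q _ => hlog0 q)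
        ((hQm 2).2 ⟨Nat.prime_two, by omega⟩)
    have h6 : 0 < Real.log ((2 : ℕ) : ℝ) := Real.log_pos (by norm_num)
    linarith
  obtain ⟨E, hE⟩ : ∃ E : ℕ, E = ⌊X / Λ⌋₊ := ⟨_, rfl⟩
  have hXL : 0 ≤ X / Λ := by positivity
  have hE1 : (E : ℝ) ≤ X / Λ := by rw [hE]; exact Nat.floor_le hXL
  have hE2 : X / Λ < E + 1 := by rw [hE]; exact Nat.lt_floor_add_one _
  have hrEE : r * E' ≤ E := by rw [hE]; exact Nat.le_floor hrE
  obtain ⟨τ, hτ⟩ : ∃ τ : ℝ, τ = X - E * Λ := ⟨_, rfl⟩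
  have hτ0 : 0 ≤ τ := by
    rw [le_div_iff₀ hΛ0] at hE1
    linarith
  have hτ1 : τ ≤ Λ := by
    rw [div_lt_iff₀ hΛ0] at hE2
    linarith
  have hr0 : (0 : ℝ) < r := by exact_mod_cast (show 0 < r by omega)
  have hE0 : (0 : ℝ) < E' := by exact_mod_cast (show 0 < E' by omega)
  have hr1 : (1 : ℝ) ≤ r := by exact_mod_cast hr
  have hE1' : (1 : ℝ) ≤ E' := by exact_mod_cast hE'
  have hJ0 : (0 : ℝ) < J := by exact_mod_cast (show 0 < J by omega)
  obtain ⟨L, hL⟩ : ∃ L : ℝ, L = 2 * r * E' * Λ := ⟨_, rfl⟩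
  have hL0 : 0 < L := by rw [hL]; positivity
  rw [← hL] at hcos hsep
  have hne : Nonempty (Fin E') := ⟨⟨0, by omega⟩⟩
  obtain ⟨v, hv⟩ : ∃ v : (Q → Fin r → Fin E' × Fin E') → ℝ, v = fun f =>
      (∑ q : Q, ∑ a : Fin r, (((f q a).1 : ℕ) - ((f q a).2 : ℕ) : ℝ) * Real.log ((q : ℕ) : ℝ)) -
        τ := ⟨_, rfl⟩
  have hvb : ∀ f, |v f| ≤ L / 2 := by
    intro f
    have h5 : |∑ q : Q, ∑ a : Fin r,
        (((f q a).1 : ℕ) - ((f q a).2 : ℕ) : ℝ) * Real.log ((q : ℕ) : ℝ)| ≤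
        r * ((E' : ℝ) - 1) * Λ := by
      have h6 : ∀ q : Q, |∑ a : Fin r,
          (((f q a).1 : ℕ) - ((f q a).2 : ℕ) : ℝ) * Real.log ((q : ℕ) : ℝ)| ≤
          r * ((E' : ℝ) - 1) * Real.log ((q : ℕ) : ℝ) := by
        intro q
        refine (Finset.abs_sum_le_sum_abs _ _).trans ?_
        calc ∑ a : Fin r, |(((f q a).1 : ℕ) - ((f q a).2 : ℕ) : ℝ) * Real.log ((q : ℕ) : ℝ)|
            ≤ ∑ _a : Fin r, ((E' : ℝ) - 1) * Real.log ((q : ℕ) : ℝ) := by
              refine Finset.sum_le_sum fun a _ => ?_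
              rw [abs_mul, abs_of_nonneg (hlog0 q)]
              exact mul_le_mul_of_nonneg_right (fin_B6 E' _ _) (hlog0 q)
          _ = r * ((E' : ℝ) - 1) * Real.log ((q : ℕ) : ℝ) := by
              rw [Finset.sum_const, Finset.card_univ, Fintype.card_fin, nsmul_eq_mul]
              ring
      refine (Finset.abs_sum_le_sum_abs _ _).trans ?_
      refine (Finset.sum_le_sum fun q _ => h6 q).trans ?_
      rw [← Finset.mul_sum, hΛ, Finset.sum_coe_sort Q (fun q : ℕ => Real.log (q : ℝ))]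
    rw [hv]
    simp only
    refine (abs_sub _ _).trans ?_
    rw [abs_of_nonneg hτ0, hL]
    nlinarith
  have hcard : (Fintype.card (Q → Fin r → Fin E' × Fin E') : ℝ) = (((E' : ℝ) ^ 2) ^ r) ^ Q.card := by
    rw [Fintype.card_fun, Fintype.card_fun, Fintype.card_prod, Fintype.card_fin, Fintype.card_fin,
      Fintype.card_coe]
    push_cast
    ring
  have hsum : ∀ j : ℕ, 1 ≤ j → j ≤ J →
      -((Fintype.card (Q → Fin r → Fin E' × Fin E') : ℝ) / (4 * J)) ≤
        ∑ f, Real.cos (2 * Real.pi * (j / L) * v f) := by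
    intro j hj1 hj2
    obtain ⟨θ, hθ⟩ : ∃ θ : ℝ, θ = (j : ℝ) / L := ⟨_, rfl⟩
    have hj0 : (0 : ℝ) < j := by exact_mod_cast (show 0 < j by omega)
    have hθ0 : 0 < θ := by rw [hθ]; positivity
    rw [← hθ]
    have h5 := h3 Q (fun q : ℕ => Real.log (q : ℝ)) E' r τ θ
    have h6 : ∑ f, Real.cos (2 * Real.pi * θ * v f) = Real.cos (2 * Real.pi * θ * τ) *
        ∏ q ∈ Q, (‖∑ x ∈ Finset.range E',
          Complex.exp (2 * Real.pi * Complex.I * (θ * (x * Real.log (q : ℝ)) : ℝ))‖ ^ 2) ^ r := by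
      rw [← h5, hv]
    rw [h6]
    have hP0 : ∀ q ∈ Q, 0 ≤ (‖∑ x ∈ Finset.range E',
        Complex.exp (2 * Real.pi * Complex.I * (θ * (x * Real.log (q : ℝ)) : ℝ))‖ ^ 2) ^ r :=
      fun q _ => by positivity
    have hprod0 := Finset.prod_nonneg hP0
    have hC0 : 0 ≤ (Fintype.card (Q → Fin r → Fin E' × Fin E') : ℝ) / (4 * J) := by positivity
    rcases le_total θ (1 / (4 * Λ)) with hcase | hcase
    · have h7 : 0 ≤ Real.cos (2 * Real.pi * θ * τ) := by
        refine Real.cos_nonneg_of_neg_pi_div_two_le_of_le ?_ ?_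
        · have := Real.pi_pos
          have h8 : 0 ≤ 2 * Real.pi * θ * τ := by positivity
          linarith
        · have h8 : θ * τ ≤ 1 / 4 := by
            calc θ * τ ≤ 1 / (4 * Λ) * Λ := mul_le_mul hcase hτ1 hτ0 (by positivity)
              _ = 1 / 4 := by field_simp
          have := Real.pi_pos
          calc 2 * Real.pi * θ * τ = 2 * Real.pi * (θ * τ) := by ring
            _ ≤ 2 * Real.pi * (1 / 4) := mul_le_mul_of_nonneg_left h8 (by positivity)
            _ = Real.pi / 2 := by ring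
      have h8 := mul_nonneg h7 hprod0
      linarith
    · have hθJ : θ ≤ J / L := by
        rw [hθ]
        have : (j : ℝ) ≤ J := by exact_mod_cast hj2
        gcongr
      obtain ⟨q₀, hq1, hq2, hq3⟩ := hsep θ hcase hθJ (fun q => round (θ * Real.log q))
      have hq0 : q₀ ∈ Q := (hQm q₀).2 ⟨hq1, hq2⟩
      have h7 := h4 E' (θ * Real.log q₀)
      have h8 : ‖∑ x ∈ Finset.range E',
          Complex.exp (2 * Real.pi * Complex.I * (θ * (x * Real.log (q₀ : ℝ)) : ℝ))‖ * (2 * ρ) ≤ 1 := by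
        have h9 : (∑ x ∈ Finset.range E',
            Complex.exp (2 * Real.pi * Complex.I * (θ * (x * Real.log (q₀ : ℝ)) : ℝ))) =
            ∑ x ∈ Finset.range E',
            Complex.exp (2 * Real.pi * Complex.I * (x * (θ * Real.log (q₀ : ℝ)) : ℝ)) := by
          refine Finset.sum_congr rfl fun x _ => ?_
          congr 3
          ring
        rw [h9]
        refine le_trans ?_ h7
        exact mul_le_mul_of_nonneg_left (by linarith) (norm_nonneg _)
      have h10 : ∀ q ∈ Q, (‖∑ x ∈ Finset.range E',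
          Complex.exp (2 * Real.pi * Complex.I * (θ * (x * Real.log (q : ℝ)) : ℝ))‖ ^ 2) ^ r ≤
          ((E' : ℝ) ^ 2) ^ r := by
        intro q _
        have h11 : ‖∑ x ∈ Finset.range E',
            Complex.exp (2 * Real.pi * Complex.I * (θ * (x * Real.log (q : ℝ)) : ℝ))‖ ≤ E' := by
          refine (norm_sum_le _ _).trans ?_
          have h12 : ∀ x ∈ Finset.range E',
              ‖Complex.exp (2 * Real.pi * Complex.I * (θ * (x * Real.log (q : ℝ)) : ℝ))‖ = 1 := by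
            intro x _
            rw [show (2 * Real.pi * Complex.I * (θ * (x * Real.log (q : ℝ)) : ℝ) : ℂ) =
              ((2 * Real.pi * (θ * (x * Real.log (q : ℝ))) : ℝ) : ℂ) * Complex.I by
                push_cast; ring]
            exact Complex.norm_exp_ofReal_mul_I _
          rw [Finset.sum_congr rfl h12]
          simp
        gcongr
      have h13 := prod_B6 Q (fun q => (‖∑ x ∈ Finset.range E',
          Complex.exp (2 * Real.pi * Complex.I * (θ * (x * Real.log (q : ℝ)) : ℝ))‖ ^ 2) ^ r)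
        (((E' : ℝ) ^ 2) ^ r) (((1 / (2 * ρ)) ^ 2) ^ r) q₀ hq0 hP0 h10 (by
          have : ‖∑ x ∈ Finset.range E',
              Complex.exp (2 * Real.pi * Complex.I * (θ * (x * Real.log (q₀ : ℝ)) : ℝ))‖ ≤
              1 / (2 * ρ) := by
            rw [le_div_iff₀ (by positivity)]
            exact h8
          gcongr) (4 * J) (by positivity) (by
          have h14 : ((1 / (2 * ρ)) ^ 2) ^ r * (2 * E' * ρ) ^ (2 * r) = ((E' : ℝ) ^ 2) ^ r := by
            rw [pow_mul, ← mul_pow]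
            congr 1
            field_simp
          rw [← h14]
          exact mul_le_mul_of_nonneg_left hJρ (by positivity)) (by positivity)
      rw [← hcard] at h13
      have h15 : -1 ≤ Real.cos (2 * Real.pi * θ * τ) := Real.neg_one_le_cos _
      have h16 : -(∏ q ∈ Q, (‖∑ x ∈ Finset.range E',
          Complex.exp (2 * Real.pi * Complex.I * (θ * (x * Real.log (q : ℝ)) : ℝ))‖ ^ 2) ^ r) ≤
          Real.cos (2 * Real.pi * θ * τ) * ∏ q ∈ Q, (‖∑ x ∈ Finset.range E',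
          Complex.exp (2 * Real.pi * Complex.I * (θ * (x * Real.log (q : ℝ)) : ℝ))‖ ^ 2) ^ r := by
        have := mul_le_mul_of_nonneg_right h15 hprod0
        linarith
      have h17 : ∏ q ∈ Q, (‖∑ x ∈ Finset.range E',
          Complex.exp (2 * Real.pi * Complex.I * (θ * (x * Real.log (q : ℝ)) : ℝ))‖ ^ 2) ^ r ≤
          (Fintype.card (Q → Fin r → Fin E' × Fin E') : ℝ) / (4 * J) := h13
      linarith
  obtain ⟨f, hf⟩ := h2 (Q → Fin r → Fin E' × Fin E') v L δ J hδ (by rw [hL]; linarith) hvb hJ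
    hcos hsum
  obtain ⟨e, he⟩ : ∃ e : Q → ℕ, e = fun q => E + (∑ a : Fin r, ((f q a).1 : ℕ)) -
    ∑ a : Fin r, ((f q a).2 : ℕ) := ⟨_, rfl⟩
  have hee : ∀ q, (e q : ℝ) = E + ∑ a : Fin r, ((((f q a).1 : ℕ) : ℝ) - (((f q a).2 : ℕ) : ℝ)) := by
    intro q
    have h5 : ∑ a : Fin r, ((f q a).2 : ℕ) ≤ E := by
      calc ∑ a : Fin r, ((f q a).2 : ℕ) ≤ ∑ _a : Fin r, E' :=
            Finset.sum_le_sum fun a _ => (f q a).2.2.le
        _ = r * E' := by rw [Finset.sum_const, Finset.card_univ, Fintype.card_fin, smul_eq_mul]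
        _ ≤ E := hrEE
    rw [he]
    simp only
    rw [Nat.cast_sub (by omega), Finset.sum_sub_distrib]
    push_cast
    ring
  refine ⟨∏ q : Q, (q : ℕ) ^ (e q), ?_, ?_, ?_⟩
  · refine Nat.one_le_iff_ne_zero.2 (Finset.prod_ne_zero_iff.2 fun q _ => ?_)
    exact pow_ne_zero _ ((hQm q).1 q.2).1.ne_zero
  · intro p hp hpd
    obtain ⟨q, -, hq⟩ := (Prime.dvd_finsetProd_iff hp.prime _).1 hpd
    have h5 := hp.dvd_of_dvd_pow hq
    have h6 := (hQm q).1 q.2
    rw [(Nat.prime_dvd_prime_iff_eq hp h6.1).1 h5]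
    exact h6.2
  · have h5 : Real.log ((∏ q : Q, (q : ℕ) ^ (e q) : ℕ) : ℝ) - X = v f := by
      rw [Nat.cast_prod, Real.log_prod (fun q _ => by
        have := ((hQm q).1 q.2).1.ne_zero
        have h6 : ((q : ℕ) : ℝ) ≠ 0 := by exact_mod_cast this
        rw [Nat.cast_pow]
        exact pow_ne_zero _ h6)]
      have h7 : ∀ q : Q, Real.log (((q : ℕ) ^ (e q) : ℕ) : ℝ) = E * Real.log ((q : ℕ) : ℝ) +
          ∑ a : Fin r, (((f q a).1 : ℕ) - ((f q a).2 : ℕ) : ℝ) * Real.log ((q : ℕ) : ℝ) := by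
        intro q
        rw [Nat.cast_pow, Real.log_pow, hee q, add_mul, Finset.sum_mul]
      rw [Finset.sum_congr rfl (fun q _ => h7 q), Finset.sum_add_distrib, ← Finset.mul_sum,
        Finset.sum_coe_sort Q (fun q : ℕ => Real.log (q : ℝ)), ← hΛ, hv, hτ]
      simp only
      ring
    rw [h5]
    exact hf

end Pool.Agent.Helper91.GS
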