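import Pool.Agent.Helper14.GS.StD

set_option autoImplicit false

namespace Pool.Agent.Helper91.GS

open Pool.Agent.Helper14.GS Pool.Agent.Helper10.EP

/-- common constants -/
private lemma const_T1 (h13 : StD13) (P₀ : Finset ℕ) (hP₀ : ∀ p ∈ P₀, p.Prime) :
    ∃ C c : ℝ, 1 ≤ C ∧ 0 < c ∧ ∀ p ∈ P₀, ∀ q ∈ P₀, p ≠ q → ∀ a b : ℕ, 1 ≤ a → 1 ≤ b →
      c * ((a : ℝ) + b) ^ (-C) ≤ |a * Real.log p - b * Real.log q| := by
  classical
  have h : ∀ x : ℕ × ℕ, ∃ C c : ℝ, 0 < C ∧ 0 < c ∧ (x.1 ∈ P₀ → x.2 ∈ P₀ → x.1 ≠ x.2 →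
      ∀ a b : ℕ, 1 ≤ a → 1 ≤ b →
      c * ((a : ℝ) + b) ^ (-C) ≤ |a * Real.log x.1 - b * Real.log x.2|) := by
    intro x
    by_cases hx : x.1 ∈ P₀ ∧ x.2 ∈ P₀ ∧ x.1 ≠ x.2
    · obtain ⟨C, c, h1, h2, h3⟩ := h13 x.1 x.2 (hP₀ _ hx.1) (hP₀ _ hx.2.1) hx.2.2
      exact ⟨C, c, h1, h2, fun _ _ _ => h3⟩
    · exact ⟨1, 1, one_pos, one_pos, fun h1 h2 h3 => absurd ⟨h1, h2, h3⟩ hx⟩
  choose Cf cf hC hc hh using h
  have hS1 : ∀ x ∈ P₀ ×ˢ P₀, Cf x ≤ ∑ x ∈ P₀ ×ˢ P₀, Cf x := fun x hx =>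
    Finset.single_le_sum (f := Cf) (fun i _ => (hC i).le) hx
  have hS2 : ∀ x ∈ P₀ ×ˢ P₀, 1 / cf x ≤ ∑ x ∈ P₀ ×ˢ P₀, 1 / cf x := fun x hx =>
    Finset.single_le_sum (f := fun x => 1 / cf x)
      (fun i _ => (one_div_pos.2 (hc i)).le) hx
  have hS3 : 0 ≤ ∑ x ∈ P₀ ×ˢ P₀, Cf x := Finset.sum_nonneg fun i _ => (hC i).le
  have hS4 : 0 ≤ ∑ x ∈ P₀ ×ˢ P₀, 1 / cf x :=
    Finset.sum_nonneg fun i _ => (one_div_pos.2 (hc i)).le
  refine ⟨1 + ∑ x ∈ P₀ ×ˢ P₀, Cf x, 1 / (1 + ∑ x ∈ P₀ ×ˢ P₀, 1 / cf x), by linarith,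
    by positivity, ?_⟩
  intro p hp q hq hpq a b ha hb
  refine le_trans ?_ (hh (p, q) hp hq hpq a b ha hb)
  have hx : (p, q) ∈ P₀ ×ˢ P₀ := Finset.mk_mem_product hp hq
  have e1 : 1 / (1 + ∑ x ∈ P₀ ×ˢ P₀, 1 / cf x) ≤ cf (p, q) := by
    rw [div_le_iff₀ (by positivity)]
    have h1 := hS2 _ hx
    have h2 := hc (p, q)
    have h3 : cf (p, q) * (1 / cf (p, q)) = 1 := by field_simp
    have h4 : cf (p, q) * (1 / cf (p, q)) ≤ cf (p, q) * (1 + ∑ x ∈ P₀ ×ˢ P₀, 1 / cf x) :=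
      mul_le_mul_of_nonneg_left (by linarith) h2.le
    linarith
  have hab : (1 : ℝ) ≤ (a : ℝ) + b := by
    have h1 : (1 : ℝ) ≤ a := by exact_mod_cast ha
    have h2 : (0 : ℝ) ≤ b := Nat.cast_nonneg b
    linarith
  have e2 : ((a : ℝ) + b) ^ (-(1 + ∑ x ∈ P₀ ×ˢ P₀, Cf x)) ≤ ((a : ℝ) + b) ^ (-(Cf (p, q))) := by
    refine Real.rpow_le_rpow_of_exponent_le hab ?_
    have := hS1 _ hx
    linarith
  exact mul_le_mul e1 e2 (by positivity) (hc _).le

/-- the arithmetic part -/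
private lemma arith_T1 (p q x z : ℕ) (hx : x ∈ SUnit {p, q}) (hz : z ∈ SUnit {p, q})
    (hxz : x < z) :
    (Real.log 2 ≤ Real.log z - Real.log x) ∨
    ∃ r ∈ ({p, q} : Set ℕ), ∃ s ∈ ({p, q} : Set ℕ), r.Prime ∧ s.Prime ∧ r ≠ s ∧ ∃ a b : ℕ, 1 ≤ a ∧
      1 ≤ b ∧ Real.log z - Real.log x = b * Real.log s - a * Real.log r ∧
      a * Real.log r ≤ Real.log x ∧ b * Real.log s ≤ Real.log z := by
  obtain ⟨hx0, hxp⟩ := hx
  obtain ⟨hz0, hzp⟩ := hz
  obtain ⟨g, x', z', hg0, hcop, hxe, hze⟩ := Nat.exists_coprime' (m := x) (n := z)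
    (Nat.gcd_pos_of_pos_left _ hx0)
  have hx'0 : 0 < x' := Nat.pos_of_ne_zero (by rintro rfl; simp at hxe; omega)
  have hz'0 : 0 < z' := Nat.pos_of_ne_zero (by rintro rfl; simp at hze; omega)
  have hlt : x' < z' := by
    rw [hxe, hze] at hxz
    exact lt_of_mul_lt_mul_right hxz (Nat.zero_le _)
  have hlx : Real.log x = Real.log x' + Real.log g := by
    rw [hxe]
    push_cast
    exact Real.log_mul (by exact_mod_cast hx'0.ne') (by exact_mod_cast hg0.ne')
  have hlz : Real.log z = Real.log z' + Real.log g := by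
    rw [hze]
    push_cast
    exact Real.log_mul (by exact_mod_cast hz'0.ne') (by exact_mod_cast hg0.ne')
  have hlg : 0 ≤ Real.log g := Real.log_natCast_nonneg g
  rcases Nat.lt_or_ge 1 x' with h1 | h1
  · right
    obtain ⟨r, hr, hrd⟩ := Nat.exists_prime_and_dvd (show x' ≠ 1 by omega)
    obtain ⟨s, hs, hsd⟩ := Nat.exists_prime_and_dvd (show z' ≠ 1 by omega)
    have hxd : x' ∣ x := ⟨g, hxe⟩
    have hzd : z' ∣ z := ⟨g, hze⟩
    have hrm := hxp r hr (hrd.trans hxd)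
    have hsm := hzp s hs (hsd.trans hzd)
    have hno : ∀ t : ℕ, t.Prime → t ∣ x' → t ∣ z' → False := by
      intro t ht h1 h2
      have := Nat.dvd_gcd h1 h2
      rw [hcop] at this
      exact ht.one_lt.ne' (Nat.dvd_one.1 this)
    have hrs : r ≠ s := by
      rintro rfl
      exact hno r hr hrd hsd
    have htwo : ∀ t ∈ ({p, q} : Set ℕ), t = r ∨ t = s := by
      intro t ht
      rcases ht with rfl | ht
      · rcases hrm with rfl | hr2
        · exact Or.inl rfl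
        · rcases hsm with rfl | hs2
          · exact Or.inr rfl
          · exact absurd (hr2.trans hs2.symm) hrs
      · rcases hrm with hr1 | hr2
        · rcases hsm with hs1 | hs2
          · exact absurd (hr1.trans hs1.symm) hrs
          · exact Or.inr (ht.trans hs2.symm)
        · exact Or.inl (ht.trans hr2.symm)
    have hxr := Nat.eq_prime_pow_of_unique_prime_dvd (n := x') (p := r) hx'0.ne' (by
      intro t ht htd
      rcases htwo t (hxp t ht (htd.trans hxd)) with h | h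
      · exact h
      · exact (hno s hs (h ▸ htd) hsd).elim)
    have hzs := Nat.eq_prime_pow_of_unique_prime_dvd (n := z') (p := s) hz'0.ne' (by
      intro t ht htd
      rcases htwo t (hzp t ht (htd.trans hzd)) with h | h
      · exact (hno r hr hrd (h ▸ htd)).elim
      · exact h)
    obtain ⟨a, ha⟩ : ∃ a, a = x'.primeFactorsList.length := ⟨_, rfl⟩
    obtain ⟨b, hb⟩ : ∃ b, b = z'.primeFactorsList.length := ⟨_, rfl⟩
    rw [← ha] at hxr
    rw [← hb] at hzs
    have ha1 : 1 ≤ a := by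
      by_contra h
      have : a = 0 := by omega
      rw [this, pow_zero] at hxr
      omega
    have hb1 : 1 ≤ b := by
      by_contra h
      have : b = 0 := by omega
      rw [this, pow_zero] at hzs
      omega
    have e1 : Real.log x' = a * Real.log r := by
      rw [hxr]
      push_cast
      exact Real.log_pow _ _
    have e2 : Real.log z' = b * Real.log s := by
      rw [hzs]
      push_cast
      exact Real.log_pow _ _
    refine ⟨r, hrm, s, hsm, hr, hs, hrs, a, b, ha1, hb1, ?_, ?_, ?_⟩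
    · rw [hlx, hlz, e1, e2]
      ring
    · rw [hlx, e1]
      linarith
    · rw [hlz, e2]
      linarith
  · left
    have hx1 : x' = 1 := by omega
    rw [hlx, hlz, hx1]
    have h2 : (2 : ℝ) ≤ z' := by
      exact_mod_cast (show 2 ≤ z' by omega)
    have h3 : Real.log 2 ≤ Real.log z' := Real.log_le_log (by norm_num) h2
    simp only [Nat.cast_one, Real.log_one]
    linarith

theorem T1 (h13 : StD13) (hB7 : ∀ A : ℝ, 0 < A → ∃ y : ℕ, 3 ≤ y ∧ Gap A y) : StT1 := by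
  intro P₀ hP₀
  obtain ⟨C, c, hC, hc, hlog⟩ := const_T1 h13 P₀ hP₀
  obtain ⟨y, hy, X₀, hX₀, hgap⟩ := hB7 (C + 1) (by linarith)
  refine ⟨y, fun P hP hPy => ?_⟩
  obtain ⟨X₁, hX₁⟩ : ∃ X₁ : ℝ, X₁ = max X₀ (max 2 (6 ^ C / c)) := ⟨_, rfl⟩
  have hb1 : X₀ ≤ X₁ := by rw [hX₁]; exact le_max_left _ _
  have hb2 : 2 ≤ X₁ := by rw [hX₁]; exact (le_max_left _ _).trans (le_max_right _ _)
  have hb3 : 6 ^ C / c ≤ X₁ := by rw [hX₁]; exact (le_max_right _ _).trans (le_max_right _ _)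
  have hlog2 : (1 : ℝ) / 2 < Real.log 2 := by
    have := Real.log_two_gt_d9
    linarith
  have key : ∀ x z : ℕ, Consecutive P x z → (∃ p ∈ P₀, ∃ q ∈ P₀, x ∈ SUnit {p, q} ∧
      z ∈ SUnit {p, q}) → Real.log x < X₁ := by
    rintro x z ⟨hxP, hzP, hxz, hcons⟩ ⟨p, hp, q, hq, hx, hz⟩
    by_contra hcon
    push Not at hcon
    obtain ⟨X, hX⟩ : ∃ X : ℝ, X = Real.log x := ⟨_, rfl⟩
    rw [← hX] at hcon
    obtain ⟨m, hm1, hmy, hm2, hm3⟩ := hgap X (hb1.trans hcon)
    have hmP : m ∈ SUnit P := ⟨hm1, fun t ht htd => hPy t ht (hmy t ht htd)⟩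
    have hx0 : (0 : ℝ) < x := by exact_mod_cast hxP.1
    have hz0 : (0 : ℝ) < z := by exact_mod_cast hzP.1
    have hm0 : (0 : ℝ) < m := by exact_mod_cast hm1
    have hxm : x < m := by
      rw [hX] at hm2
      have := (Real.log_lt_log_iff hx0 hm0).1 hm2
      exact_mod_cast this
    have hzm : z ≤ m := by
      rcases hcons m hmP with h | h
      · omega
      · exact h
    have hlzm : Real.log z ≤ Real.log m := Real.log_le_log hz0 (by exact_mod_cast hzm)
    have hX2 : 2 ≤ X := hb2.trans hcon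
    have hX0 : 0 < X := by linarith
    have hd : Real.log z - Real.log x < X ^ (-(C + 1)) := by
      rw [← hX]
      linarith
    have hinv : X ^ (-(C + 1)) = X ^ (-C) * X⁻¹ := by
      rw [show -(C + 1) = -C + -1 by ring, Real.rpow_add hX0, Real.rpow_neg_one]
    have hXC : X ^ (-C) ≤ 1 := Real.rpow_le_one_of_one_le_of_nonpos (by linarith) (by linarith)
    have hXi : X⁻¹ ≤ 1 / 2 := by
      rw [inv_eq_one_div]
      exact one_div_le_one_div_of_le (by norm_num) hX2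
    have hXi0 : 0 < X⁻¹ := inv_pos.2 hX0
    have hXC0 : 0 < X ^ (-C) := Real.rpow_pos_of_pos hX0 _
    have hsmall : X ^ (-(C + 1)) ≤ 1 / 2 := by
      rw [hinv]
      nlinarith
    rcases arith_T1 p q x z hx hz hxz with h | ⟨r, hr, s, hs, hrp, hsp, hrs, a, b, ha, hb, he, h1, h2⟩
    · linarith
    · have hrP : r ∈ P₀ := by
        rcases hr with rfl | hr
        · exact hp
        · rw [show r = q from hr]; exact hq
      have hsP : s ∈ P₀ := by
        rcases hs with rfl | hs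
        · exact hp
        · rw [show s = q from hs]; exact hq
      have hl := hlog s hsP r hrP hrs.symm b a hb ha
      rw [← he, abs_of_pos (by
        have := (Real.log_lt_log_iff hx0 hz0).2 (by exact_mod_cast hxz)
        linarith)] at hl
      have hr2 : Real.log 2 ≤ Real.log r := Real.log_le_log (by norm_num)
        (by exact_mod_cast hrp.two_le)
      have hs2 : Real.log 2 ≤ Real.log s := Real.log_le_log (by norm_num)
        (by exact_mod_cast hsp.two_le)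
      have ha0 : (1 : ℝ) ≤ a := by exact_mod_cast ha
      have hb0 : (1 : ℝ) ≤ b := by exact_mod_cast hb
      have ha2 : (a : ℝ) ≤ 2 * X := by
        have : (a : ℝ) * (1 / 2) ≤ a * Real.log r :=
          mul_le_mul_of_nonneg_left (by linarith) (by linarith)
        rw [hX]
        linarith
      have hb2' : (b : ℝ) ≤ 4 * X := by
        have h3 : (b : ℝ) * (1 / 2) ≤ b * Real.log s :=
          mul_le_mul_of_nonneg_left (by linarith) (by linarith)
        have h4 : Real.log z ≤ 2 * X := by linarith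
        linarith
      have hab : ((b : ℝ) + a) ≤ 6 * X := by linarith
      have h5 : (6 * X) ^ (-C) ≤ ((b : ℝ) + a) ^ (-C) :=
        Real.rpow_le_rpow_of_nonpos (by linarith) hab (by linarith)
      have h6 : c * (6 * X) ^ (-C) < X ^ (-C) * X⁻¹ := by
        rw [← hinv]
        calc c * (6 * X) ^ (-C) ≤ c * ((b : ℝ) + a) ^ (-C) := mul_le_mul_of_nonneg_left h5 hc.le
          _ ≤ _ := hl
          _ < _ := hd
      rw [Real.mul_rpow (by norm_num) hX0.le, Real.rpow_neg (by norm_num : (0 : ℝ) ≤ 6)] at h6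
      have h7 : c * ((6 : ℝ) ^ C)⁻¹ < X⁻¹ := by
        have : X ^ (-C) * (c * ((6 : ℝ) ^ C)⁻¹) < X ^ (-C) * X⁻¹ := by
          calc X ^ (-C) * (c * ((6 : ℝ) ^ C)⁻¹) = c * (((6 : ℝ) ^ C)⁻¹ * X ^ (-C)) := by ring
            _ < _ := h6
        exact lt_of_mul_lt_mul_left this hXC0.le
      have h60 : (0 : ℝ) < 6 ^ C := by positivity
      have h8 : X < 6 ^ C / c := by
        rw [lt_div_iff₀ hc]
        have : X * (c * ((6 : ℝ) ^ C)⁻¹) * 6 ^ C < X * X⁻¹ * 6 ^ C :=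
          mul_lt_mul_of_pos_right (mul_lt_mul_of_pos_left h7 hX0) h60
        rw [mul_inv_cancel₀ hX0.ne', one_mul] at this
        calc X * c = X * (c * ((6 : ℝ) ^ C)⁻¹) * 6 ^ C := by field_simp
          _ < _ := this
      linarith
  obtain ⟨B, hB⟩ : ∃ B : ℕ, B = ⌊Real.exp X₁⌋₊ := ⟨_, rfl⟩
  refine Set.Finite.subset (((Finset.range (B + 1)) ×ˢ (Finset.range (2 * B + 1))).finite_toSet) ?_
  rintro ⟨x, z⟩ ⟨hcon, hex⟩
  have hlt := key x z hcon hex
  obtain ⟨hxP, hzP, hxz, hcons⟩ := hcon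
  simp only at hxP hzP hxz hcons hlt
  have hx0 : (0 : ℝ) < x := by exact_mod_cast hxP.1
  have hxB : x ≤ B := by
    rw [hB]
    refine Nat.le_floor ?_
    exact ((Real.log_lt_iff_lt_exp hx0).1 hlt).le
  have h2x : 2 * x ∈ SUnit P := by
    refine ⟨Nat.mul_pos (by norm_num) hxP.1, fun t ht htd => ?_⟩
    rcases (Nat.Prime.dvd_mul ht).1 htd with h | h
    · rw [(Nat.prime_dvd_prime_iff_eq ht Nat.prime_two).1 h]
      exact hPy 2 Nat.prime_two (by omega)
    · exact hxP.2 t ht h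
  have hz2 : z ≤ 2 * x := by
    rcases hcons _ h2x with h | h
    · have := hxP.1
      omega
    · exact h
  simp only [Finset.coe_product, Finset.coe_range, Set.mem_prod, Set.mem_Iio]
  omega

end Pool.Agent.Helper91.GS
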